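import Pool.Agent.helper16.LW.Spec

/-!
# Project lw (MP_4467b5_nt), module PSF: comparison with an explicit kernel
-/

set_option autoImplicit false

open Complex MeasureTheory

namespace Pool.Agent.LW

open Pool.Agent.ZD Pool.Agent.helper84.DM Pool.Agent.helper78.ED Pool.Agent.DH

/-- The integral of a character over a period. -/
theorem PSF_orth (n : ℤ) : ∫ x in (-Real.pi)..Real.pi, Complex.exp ((((n : ℝ) * x : ℝ) : ℂ) * I) =
    if n = 0 then ((2 * Real.pi : ℝ) : ℂ) else 0 := by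
  split_ifs with h
  · subst h
    simp
    ring
  · have hn : ((n : ℂ) * I) ≠ 0 := mul_ne_zero (by exact_mod_cast h) I_ne_zero
    have h1 : ∀ x : ℝ, Complex.exp ((((n : ℝ) * x : ℝ) : ℂ) * I) = Complex.exp (((n : ℂ) * I) * (x : ℂ)) := by
      intro x
      congr 1
      push_cast
      ring
    simp only [h1]
    rw [integral_exp_mul_complex hn]
    have h2 : Complex.exp (((n : ℂ) * I) * ((Real.pi : ℝ) : ℂ)) =
        Complex.exp (((n : ℂ) * I) * (((-Real.pi : ℝ)) : ℂ)) := by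
      rw [Complex.exp_eq_exp_iff_exists_int]
      refine ⟨n, ?_⟩
      push_cast
      ring
    rw [h2, sub_self, zero_div]

/-- The kernel `∑ k k', Phi (k/N) Phi (k'/N) Fej J (x - (log k - log k'))`. -/
noncomputable def PSF_R (J N : ℕ) (x : ℝ) : ℝ :=
  ∑ k ∈ Finset.Icc 1 ⌊64 * (N : ℝ)⌋₊, ∑ k' ∈ Finset.Icc 1 ⌊64 * (N : ℝ)⌋₊,
    Phi ((k : ℝ) / N) * Phi ((k' : ℝ) / N) * Fej J (x - (Real.log k - Real.log k'))

theorem PSF_R_cont (J N : ℕ) : Continuous (PSF_R J N) := by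
  unfold PSF_R Fej
  fun_prop

theorem PSF_major (hRF0 : RF0_stmt) (hFEJ : FEJ_stmt) (hPHS : PHS_stmt) (J N : ℕ) (a : ℕ → ℂ) (x : ℝ)
    (hJ : 1 ≤ J) (hN : 1 ≤ N) (ha : Co N a) : ‖rF J (F0 J N a) x‖ ≤ PSF_R J N x := by
  refine le_trans (hRF0 J N a x hJ ha) ?_
  have hNr : (1 : ℝ) ≤ N := by exact_mod_cast hN
  have hsub : Finset.Ioc N (2 * N) ⊆ Finset.Icc 1 ⌊64 * (N : ℝ)⌋₊ := by
    intro n hn
    rw [Finset.mem_Ioc] at hn
    rw [Finset.mem_Icc]
    refine ⟨by omega, ?_⟩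
    apply Nat.le_floor
    have : (n : ℝ) ≤ 2 * N := by exact_mod_cast hn.2
    linarith
  have hPhi1 : ∀ n ∈ Finset.Ioc N (2 * N), Phi ((n : ℝ) / N) = 1 := by
    intro n hn
    rw [Finset.mem_Ioc] at hn
    have h1 : (N : ℝ) ≤ n := by exact_mod_cast hn.1.le
    have h2 : (n : ℝ) ≤ 2 * N := by exact_mod_cast hn.2
    have hN0 : (0 : ℝ) < N := by linarith
    apply hPHS.2.2.2.1
    · rw [le_div_iff₀ hN0]; linarith
    · rw [div_le_iff₀ hN0]; linarith
  have hF : ∀ y, 0 ≤ Fej J y := fun y => (hFEJ.1 J y hJ).2.1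
  have hPhi0 : ∀ y, 0 ≤ Phi y := fun y => (hPHS.2.2.1 y).1
  calc ∑ n ∈ Finset.Ioc N (2 * N), ∑ n' ∈ Finset.Ioc N (2 * N), Fej J (x - (Real.log n - Real.log n'))
      ≤ ∑ n ∈ Finset.Ioc N (2 * N), ∑ n' ∈ Finset.Icc 1 ⌊64 * (N : ℝ)⌋₊,
        Phi ((n : ℝ) / N) * Phi ((n' : ℝ) / N) * Fej J (x - (Real.log n - Real.log n')) := by
        refine Finset.sum_le_sum fun n hn => ?_
        refine le_trans (le_of_eq ?_) (Finset.sum_le_sum_of_subset_of_nonneg hsub ?_)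
        · refine Finset.sum_congr rfl fun n' hn' => ?_
          rw [hPhi1 n hn, hPhi1 n' hn', one_mul, one_mul]
        · intro k _ _
          exact mul_nonneg (mul_nonneg (hPhi0 _) (hPhi0 _)) (hF _)
    _ ≤ PSF_R J N x := by
        unfold PSF_R
        refine Finset.sum_le_sum_of_subset_of_nonneg hsub ?_
        intro k _ _
        refine Finset.sum_nonneg fun k' _ => ?_
        exact mul_nonneg (mul_nonneg (hPhi0 _) (hPhi0 _)) (hF _)

theorem PSF_R_expand (hFEJ : FEJ_stmt) (hH0B : H0B_stmt) (J N : ℕ) (x : ℝ) (hJ : 1 ≤ J) :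
    ((PSF_R J N x : ℝ) : ℂ) = ∑ q ∈ IJ J, ((wj J q * ‖BX N (q : ℝ)‖ ^ 2 : ℝ) : ℂ) *
      Complex.exp ((((q : ℝ) * x : ℝ) : ℂ) * I) := by
  have hBX : ∀ u : ℝ, BX N u = ∑ k ∈ Finset.Icc 1 ⌊64 * (N : ℝ)⌋₊,
      ((Phi ((k : ℝ) / N) : ℝ) : ℂ) * Complex.exp (-(((u * Real.log k : ℝ) : ℂ) * I)) := by
    intro u
    unfold BX
    refine Finset.sum_congr rfl fun k hk => ?_
    rw [Finset.mem_Icc] at hk
    have hk0 : (k : ℂ) ≠ 0 := by
      have : k ≠ 0 := by omega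
      exact_mod_cast this
    congr 1
    rw [Complex.cpow_def_of_ne_zero hk0]
    congr 1
    rw [Complex.ofReal_mul, ← Complex.natCast_log]
    ring
  have hnorm : ∀ q : ℤ, ((‖BX N (q : ℝ)‖ ^ 2 : ℝ) : ℂ) = BX N (q : ℝ) * BX N (-(q : ℝ)) := by
    intro q
    rw [hH0B.2.2.2, Complex.mul_conj, Complex.normSq_eq_norm_sq]
  unfold PSF_R
  push_cast
  have step : ∀ k ∈ Finset.Icc 1 ⌊64 * (N : ℝ)⌋₊, ∀ k' ∈ Finset.Icc 1 ⌊64 * (N : ℝ)⌋₊,
      ((Phi ((k : ℝ) / N) : ℝ) : ℂ) * ((Phi ((k' : ℝ) / N) : ℝ) : ℂ) *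
        ((Fej J (x - (Real.log k - Real.log k')) : ℝ) : ℂ) =
      ∑ q ∈ IJ J, ((wj J q : ℝ) : ℂ) * Complex.exp ((((q : ℝ) * x : ℝ) : ℂ) * I) *
        ((((Phi ((k : ℝ) / N) : ℝ) : ℂ) * Complex.exp (-((((q : ℝ) * Real.log k : ℝ) : ℂ) * I))) *
        (((Phi ((k' : ℝ) / N) : ℝ) : ℂ) * Complex.exp (-((((-(q : ℝ)) * Real.log k' : ℝ) : ℂ) * I)))) := by
    intro k _ k' _
    rw [← (hFEJ.1 J _ hJ).1, Finset.mul_sum]
    refine Finset.sum_congr rfl fun q _ => ?_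
    have h1 : Complex.exp ((((q : ℝ) * (x - (Real.log k - Real.log k')) : ℝ) : ℂ) * I) =
        Complex.exp ((((q : ℝ) * x : ℝ) : ℂ) * I) *
        (Complex.exp (-((((q : ℝ) * Real.log k : ℝ) : ℂ) * I)) *
        Complex.exp (-((((-(q : ℝ)) * Real.log k' : ℝ) : ℂ) * I))) := by
      rw [← Complex.exp_add, ← Complex.exp_add]
      congr 1
      push_cast
      ring
    rw [h1]
    ring
  rw [Finset.sum_congr rfl fun k hk => Finset.sum_congr rfl fun k' hk' => step k hk k' hk']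
  rw [Finset.sum_congr rfl fun k _ => Finset.sum_comm, Finset.sum_comm]
  refine Finset.sum_congr rfl fun q _ => ?_
  have h2 := hnorm q
  push_cast at h2
  have h7 : ∑ k ∈ Finset.Icc 1 ⌊64 * (N : ℝ)⌋₊, ∑ k' ∈ Finset.Icc 1 ⌊64 * (N : ℝ)⌋₊,
      ((wj J q : ℝ) : ℂ) * Complex.exp ((((q : ℝ) * x : ℝ) : ℂ) * I) *
        ((((Phi ((k : ℝ) / N) : ℝ) : ℂ) * Complex.exp (-((((q : ℝ) * Real.log k : ℝ) : ℂ) * I))) *
        (((Phi ((k' : ℝ) / N) : ℝ) : ℂ) * Complex.exp (-((((-(q : ℝ)) * Real.log k' : ℝ) : ℂ) * I)))) =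
      ((wj J q : ℝ) : ℂ) * Complex.exp ((((q : ℝ) * x : ℝ) : ℂ) * I) *
        (BX N (q : ℝ) * BX N (-(q : ℝ))) := by
    rw [hBX (q : ℝ), hBX (-(q : ℝ)), Finset.sum_mul_sum, Finset.mul_sum]
    refine Finset.sum_congr rfl fun k _ => ?_
    rw [Finset.mul_sum]
  rw [h7, h2]
  push_cast
  ring

theorem PSF_sq (J : ℕ) (F : ℤ → ℝ) (x : ℝ) : ((‖rF J F x‖ ^ 2 : ℝ) : ℂ) =
    ∑ j ∈ IJ J, ∑ l ∈ IJ J, ((F j * F l : ℝ) : ℂ) *
      Complex.exp (((((j - l : ℤ) : ℝ) * x : ℝ) : ℂ) * I) := by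
  rw [← Complex.normSq_eq_norm_sq, ← Complex.mul_conj]
  have hc : (starRingEnd ℂ) (rF J F x) = ∑ l ∈ IJ J, ((F l : ℝ) : ℂ) *
      Complex.exp (-((((l : ℝ) * x : ℝ) : ℂ) * I)) := by
    unfold rF
    rw [map_sum]
    refine Finset.sum_congr rfl fun l _ => ?_
    rw [map_mul, Complex.conj_ofReal, ← Complex.exp_conj, map_mul, Complex.conj_ofReal, Complex.conj_I]
    congr 2
    ring
  rw [hc]
  unfold rF
  rw [Finset.sum_mul_sum]
  refine Finset.sum_congr rfl fun j _ => Finset.sum_congr rfl fun l _ => ?_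
  have : Complex.exp (((((j - l : ℤ) : ℝ) * x : ℝ) : ℂ) * I) =
      Complex.exp ((((j : ℝ) * x : ℝ) : ℂ) * I) * Complex.exp (-((((l : ℝ) * x : ℝ) : ℂ) * I)) := by
    rw [← Complex.exp_add]
    congr 1
    push_cast
    ring
  rw [this]
  push_cast
  ring

theorem PSF (hRF0 : RF0_stmt) (hFEJ : FEJ_stmt) (hPHS : PHS_stmt) (hH0B : H0B_stmt) (hRHO : RHO_stmt) :
    PSF_stmt := by
  intro J N a F hJ hN ha hF
  have hc1 : Continuous (rF J F) := (hRHO J F).1
  have hc2 : Continuous (rF J (F0 J N a)) := (hRHO J (F0 J N a)).1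
  have hc3 : Continuous (PSF_R J N) := PSF_R_cont J N
  have hpi : -Real.pi ≤ Real.pi := by linarith [Real.pi_pos]
  have h1 : ∫ x in (-Real.pi)..Real.pi, ‖rF J F x‖ ^ 2 * ‖rF J (F0 J N a) x‖ ≤
      ∫ x in (-Real.pi)..Real.pi, ‖rF J F x‖ ^ 2 * PSF_R J N x := by
    refine intervalIntegral.integral_mono_on hpi ?_ ?_ ?_
    · exact Continuous.intervalIntegrable (by fun_prop) _ _
    · exact Continuous.intervalIntegrable (by fun_prop) _ _
    · intro x _
      exact mul_le_mul_of_nonneg_left (PSF_major hRF0 hFEJ hPHS J N a x hJ hN ha) (by positivity)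
  refine le_trans h1 ?_
  -- the exact value of the second integral
  have h2 : ((∫ x in (-Real.pi)..Real.pi, ‖rF J F x‖ ^ 2 * PSF_R J N x : ℝ) : ℂ) =
      ((∑ j ∈ IJ J, ∑ l ∈ IJ J, ∑ q ∈ IJ J, F j * F l * (wj J q * ‖BX N (q : ℝ)‖ ^ 2) *
        (if j - l + q = 0 then 2 * Real.pi else 0) : ℝ) : ℂ) := by
    rw [← intervalIntegral.integral_ofReal]
    have h3 : ∀ x : ℝ, ((‖rF J F x‖ ^ 2 * PSF_R J N x : ℝ) : ℂ) =
        ∑ j ∈ IJ J, ∑ l ∈ IJ J, ∑ q ∈ IJ J, ((F j * F l * (wj J q * ‖BX N (q : ℝ)‖ ^ 2) : ℝ) : ℂ) *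
          Complex.exp (((((j - l + q : ℤ) : ℝ) * x : ℝ) : ℂ) * I) := by
      intro x
      rw [Complex.ofReal_mul, PSF_sq J F x, PSF_R_expand hFEJ hH0B J N x hJ, Finset.sum_mul]
      refine Finset.sum_congr rfl fun j _ => ?_
      rw [Finset.sum_mul]
      refine Finset.sum_congr rfl fun l _ => ?_
      rw [Finset.mul_sum]
      refine Finset.sum_congr rfl fun q _ => ?_
      have : Complex.exp (((((j - l + q : ℤ) : ℝ) * x : ℝ) : ℂ) * I) =
          Complex.exp (((((j - l : ℤ) : ℝ) * x : ℝ) : ℂ) * I) *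
            Complex.exp ((((q : ℝ) * x : ℝ) : ℂ) * I) := by
        rw [← Complex.exp_add]
        congr 1
        push_cast
        ring
      rw [this]
      push_cast
      ring
    simp only [h3]
    rw [intervalIntegral.integral_finsetSum]
    · push_cast
      refine Finset.sum_congr rfl fun j _ => ?_
      rw [intervalIntegral.integral_finsetSum]
      · refine Finset.sum_congr rfl fun l _ => ?_
        rw [intervalIntegral.integral_finsetSum]
        · refine Finset.sum_congr rfl fun q _ => ?_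
          rw [intervalIntegral.integral_const_mul]
          have := PSF_orth (j - l + q)
          push_cast at this
          rw [this]
          split_ifs <;> simp
        · intro q _
          exact Continuous.intervalIntegrable (by fun_prop) _ _
      · intro l _
        exact Continuous.intervalIntegrable (by fun_prop) _ _
    · intro j _
      exact Continuous.intervalIntegrable (by fun_prop) _ _
  have h4 := Complex.ofReal_injective h2
  rw [h4, Finset.mul_sum]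
  refine Finset.sum_le_sum fun j hj => ?_
  rw [Finset.mul_sum]
  refine Finset.sum_le_sum fun l hl => ?_
  have hsym : ‖BX N (((l - j : ℤ)) : ℝ)‖ = ‖BX N ((j : ℝ) - l)‖ := by
    have : (((l - j : ℤ)) : ℝ) = -((j : ℝ) - l) := by push_cast; ring
    rw [this, hH0B.2.2.2, Complex.norm_conj]
  have h5 : ∑ q ∈ IJ J, F j * F l * (wj J q * ‖BX N (q : ℝ)‖ ^ 2) *
      (if j - l + q = 0 then 2 * Real.pi else 0) =
      ∑ q ∈ IJ J, if q = l - j then 2 * Real.pi * (F j * F l * (wj J q * ‖BX N (q : ℝ)‖ ^ 2)) else 0 := by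
    refine Finset.sum_congr rfl fun q _ => ?_
    by_cases h : j - l + q = 0
    · rw [if_pos h, if_pos (by omega)]
      ring
    · rw [if_neg h, if_neg (by omega), mul_zero]
  rw [h5, Finset.sum_ite_eq']
  have hFF : 0 ≤ F j * F l := mul_nonneg (hF j hj) (hF l hl)
  split_ifs with h6
  · rw [hsym]
    have hw := hFEJ.2.1 J (l - j) h6
    refine mul_le_mul_of_nonneg_left ?_ (by positivity)
    refine mul_le_mul_of_nonneg_left ?_ hFF
    exact mul_le_of_le_one_left (by positivity) hw.2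
  · positivity

end Pool.Agent.LW
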