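import Pool.Agent.helper16.LW.Spec

/-!
# Project lw (MP_4467b5_nt), module Q3B: the third moment
-/

set_option autoImplicit false

open Complex MeasureTheory

namespace Pool.Agent.LW

open Pool.Agent.ZD Pool.Agent.helper84.DM Pool.Agent.helper78.ED Pool.Agent.DH

theorem Q3B (hPSF : PSF_stmt) (hBNS : BNS_stmt) (hE1B : E1B_stmt) (hRHO : RHO_stmt) (hFEJ : FEJ_stmt) :
    Q3B_stmt := by
  intro ε hε
  obtain ⟨C₁, hC₁, h1⟩ := hBNS ε hε
  obtain ⟨C₂, hC₂, h2⟩ := hE1B ε hε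
  refine ⟨4 * Real.pi * (C₁ + C₂) + C₂, by positivity, ?_⟩
  intro J N a U hN hNJ hU ha hUK
  have hJ : 1 ≤ J := le_trans hN hNJ
  have hJr : (1 : ℝ) ≤ J := by exact_mod_cast hJ
  have hF0 : ∀ j ∈ IJ J, 0 ≤ F0 J N a j := by
    intro j hj
    exact mul_nonneg (hFEJ.2.1 J j hj).1 (by positivity)
  have hF : ∀ j ∈ IJ J, 0 ≤ FU J N a U j ∧ FU J N a U j ≤ F0 J N a j := by
    intro j hj
    unfold FU
    split_ifs
    · exact ⟨hF0 j hj, le_refl _⟩
    · exact ⟨le_refl _, hF0 j hj⟩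
  have hJε : 0 ≤ (J : ℝ) ^ ε := by positivity
  have hN32 : 0 ≤ (N : ℝ) ^ (3 / 2 : ℝ) := by positivity
  have hUK2 : C₂ * (J : ℝ) ^ ε * (N : ℝ) ^ (3 / 2 : ℝ) ≤ U ^ 2 := by
    refine le_trans ?_ hUK
    refine mul_le_mul_of_nonneg_right (mul_le_mul_of_nonneg_right ?_ hJε) hN32
    have : 0 ≤ 4 * Real.pi * (C₁ + C₂) := by positivity
    linarith
  have h3 := h2 J N a U hN hNJ hU ha hUK2
  have h4 := h1 J N a (FU J N a U) hN hNJ ha hF
  obtain ⟨E, hE⟩ : ∃ E, E = ∑ j ∈ IJ J, (F0 J N a j - FU J N a U j) := ⟨_, rfl⟩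
  rw [← hE] at h3
  have hE0 : 0 ≤ E := by
    rw [hE]
    exact Finset.sum_nonneg fun j hj => by linarith [(hF j hj).2]
  -- pointwise comparison
  have h5 : ∀ x : ℝ, ‖rF J (FU J N a U) x‖ ≤ ‖rF J (F0 J N a) x‖ + E := by
    intro x
    have h6 : rF J (FU J N a U) x = rF J (F0 J N a) x - rF J (fun j => F0 J N a j - FU J N a U j) x := by
      unfold rF
      rw [← Finset.sum_sub_distrib]
      refine Finset.sum_congr rfl fun j _ => ?_
      push_cast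
      ring
    have h7 := (hRHO J (fun j => F0 J N a j - FU J N a U j)).2.2.1 x
    have h8 : ∑ j ∈ IJ J, |F0 J N a j - FU J N a U j| = E := by
      rw [hE]
      refine Finset.sum_congr rfl fun j hj => ?_
      exact abs_of_nonneg (by linarith [(hF j hj).2])
    rw [h6]
    refine le_trans (norm_sub_le _ _) ?_
    have h7' : ‖rF J (fun j => F0 J N a j - FU J N a U j) x‖ ≤ E := by rw [← h8]; exact h7
    linarith
  have hc1 : Continuous (rF J (FU J N a U)) := (hRHO J (FU J N a U)).1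
  have hc2 : Continuous (rF J (F0 J N a)) := (hRHO J (F0 J N a)).1
  have hpi : -Real.pi ≤ Real.pi := by linarith [Real.pi_pos]
  have h9 : ∫ x in (-Real.pi)..Real.pi, ‖rF J (FU J N a U) x‖ ^ 3 ≤
      (∫ x in (-Real.pi)..Real.pi, ‖rF J (FU J N a U) x‖ ^ 2 * ‖rF J (F0 J N a) x‖) +
      E * ∫ x in (-Real.pi)..Real.pi, ‖rF J (FU J N a U) x‖ ^ 2 := by
    rw [← intervalIntegral.integral_const_mul, ← intervalIntegral.integral_add]
    · refine intervalIntegral.integral_mono_on hpi ?_ ?_ ?_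
      · exact Continuous.intervalIntegrable (by fun_prop) _ _
      · exact Continuous.intervalIntegrable (by fun_prop) _ _
      · intro x _
        have h10 : ‖rF J (FU J N a U) x‖ ^ 3 = ‖rF J (FU J N a U) x‖ ^ 2 * ‖rF J (FU J N a U) x‖ := by
          ring
        rw [h10]
        have := mul_le_mul_of_nonneg_left (h5 x) (sq_nonneg ‖rF J (FU J N a U) x‖)
        linarith
    · exact Continuous.intervalIntegrable (by fun_prop) _ _
    · exact Continuous.intervalIntegrable (by fun_prop) _ _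
  have h11 := hPSF J N a (FU J N a U) hJ hN ha (fun j hj => (hF j hj).1)
  have h12 := (hRHO J (FU J N a U)).2.2.2.1
  have h13 := (hRHO J (FU J N a U)).2.2.2.2 3
  rw [h12] at h9
  obtain ⟨S, hS⟩ : ∃ S, S = ∑ j ∈ IJ J, FU J N a U j ^ 2 := ⟨_, rfl⟩
  rw [← hS] at h9 h4 ⊢
  have hS0 : 0 ≤ S := by
    rw [hS]
    exact Finset.sum_nonneg fun j _ => by positivity
  obtain ⟨A, hA⟩ : ∃ A, A = (N : ℝ) ^ 2 + (J : ℝ) ^ (1 / 2 : ℝ) * (N : ℝ) ^ 3 / U ^ 2 := ⟨_, rfl⟩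
  rw [← hA] at h3 ⊢
  have hA0 : (N : ℝ) ^ 2 ≤ A := by
    rw [hA]
    have : 0 ≤ (J : ℝ) ^ (1 / 2 : ℝ) * (N : ℝ) ^ 3 / U ^ 2 := by positivity
    linarith
  have hA1 : 0 ≤ A := le_trans (by positivity) hA0
  obtain ⟨G, hG⟩ : ∃ G, G = (J : ℝ) ^ 2 * (N : ℝ) ^ 3 := ⟨_, rfl⟩
  rw [← hG] at h4 ⊢
  have hG0 : 0 ≤ G := by rw [hG]; positivity
  obtain ⟨w, hw⟩ : ∃ w, w = (J : ℝ) ^ ε := ⟨_, rfl⟩
  rw [← hw] at h3 h4 hJε ⊢
  have h14 : C₁ * w * ((N : ℝ) ^ 2 * S + G) ≤ C₁ * w * (A * S + G) := by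
    refine mul_le_mul_of_nonneg_left ?_ (by positivity)
    have := mul_le_mul_of_nonneg_right hA0 hS0
    linarith
  have h15 : E * (2 * Real.pi * S) ≤ 2 * Real.pi * (C₂ * w * (A * S + G)) := by
    have h16 : E * (2 * Real.pi * S) ≤ (C₂ * w * A) * (2 * Real.pi * S) :=
      mul_le_mul_of_nonneg_right h3 (by positivity)
    have h17 : 0 ≤ 2 * Real.pi * (C₂ * w * G) := by positivity
    nlinarith
  have h18 : 2 * Real.pi * ∑ j ∈ IJ J, ∑ l ∈ IJ J, FU J N a U j * FU J N a U l *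
      ‖BX N ((j : ℝ) - l)‖ ^ 2 ≤ 2 * Real.pi * (C₁ * w * (A * S + G)) :=
    mul_le_mul_of_nonneg_left (le_trans h4 h14) (by positivity)
  have h19 : 0 ≤ C₂ * w * (A * S + G) := by positivity
  have h20 : (4 * Real.pi * (C₁ + C₂) + C₂) * w * (A * S + G) =
      2 * (2 * Real.pi * (C₁ * w * (A * S + G)) + 2 * Real.pi * (C₂ * w * (A * S + G))) +
      C₂ * w * (A * S + G) := by ring
  rw [h20]
  linarith

end Pool.Agent.LW
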