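import Pool.Agent.helper16.LW.Spec

/-!
# Project lw (MP_4467b5_nt), module ALG: the real inequality of the grid theorem
-/

set_option autoImplicit false

open Complex MeasureTheory

namespace Pool.Agent.LW

/-- The inequality in the variables `J = p^14`, `N = q^7`, `m = s^2`. -/
theorem ALG_poly (p q s K U L y : ℝ) (hp : 1 ≤ p) (hq : 1 ≤ q) (hs : 0 ≤ s) (hpq : p ^ 6 ≤ q ^ 5)
    (hK : 1 ≤ K) (hU : 0 < U) (hL : 1 ≤ L) (hy0 : 0 ≤ y) (hy : y * q ^ 6 = p ^ 10) (hyL : y ≤ L)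
    (hLy : L ≤ 1 + y) (hB : p ^ 7 * q ^ 21 + p ^ 12 * q ^ 18 ≤ q ^ 14 * L * U ^ 2)
    (hm : L * (s ^ 2) ^ 3 ≤ K * (q ^ 7) ^ 3 * ((q ^ 7 * L) ^ 2 * p ^ 14 * q ^ 7 * s ^ 2 +
      (p ^ 14) ^ 2 * s ^ 3 + q ^ 7 * L * p ^ 14 * (((q ^ 7) ^ 2 + p ^ 7 * (q ^ 7) ^ 3 / U ^ 2) * s ^ 2 +
        (p ^ 14) ^ 2 * (q ^ 7) ^ 3) + 1)) :
    s ^ 2 ≤ 12 * K * (p ^ 7 * q ^ 21 + p ^ 12 * q ^ 18) := by
  by_contra hcon
  rw [not_le] at hcon
  obtain ⟨P, hP⟩ : ∃ P, P = p ^ 7 * q ^ 21 := ⟨_, rfl⟩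
  obtain ⟨Q, hQ⟩ : ∃ Q, Q = p ^ 12 * q ^ 18 := ⟨_, rfl⟩
  rw [← hP, ← hQ] at hcon hB
  have hp0 : 0 < p := by linarith
  have hq0 : 0 < q := by linarith
  have hP1 : 1 ≤ P := by
    rw [hP]
    exact one_le_mul_of_one_le_of_one_le (one_le_pow₀ hp) (one_le_pow₀ hq)
  have hQ1 : 1 ≤ Q := by
    rw [hQ]
    exact one_le_mul_of_one_le_of_one_le (one_le_pow₀ hp) (one_le_pow₀ hq)
  obtain ⟨B, hBd⟩ : ∃ B, B = P + Q := ⟨_, rfl⟩
  rw [← hBd] at hcon hB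
  have hB1 : 1 ≤ B := by linarith
  have hPB : P ≤ B := by linarith
  have hQB : Q ≤ B := by linarith
  have hK0 : 0 < K := by linarith
  have hL0 : 0 < L := by linarith
  obtain ⟨m, hmd⟩ : ∃ m, m = s ^ 2 := ⟨_, rfl⟩
  have hm0 : 0 < m := by
    rw [hmd]
    have : 0 < 12 * K * B := by positivity
    linarith
  have hmB : 12 * K * B ≤ m := by rw [hmd]; exact hcon.le
  -- `L P² ≤ B²`
  have hyP : y * P ^ 2 = Q ^ 2 := by
    have : y * P ^ 2 = (y * q ^ 6) * (p ^ 14 * q ^ 36) := by rw [hP]; ring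
    rw [this, hy, hQ]
    ring
  have hLP : L * P ^ 2 ≤ B ^ 2 := by
    have h1 : L * P ^ 2 ≤ (1 + y) * P ^ 2 := mul_le_mul_of_nonneg_right hLy (by positivity)
    have h2 : (1 + y) * P ^ 2 = P ^ 2 + Q ^ 2 := by rw [← hyP]; ring
    have h3 : P ^ 2 + Q ^ 2 ≤ B ^ 2 := by rw [hBd]; nlinarith
    linarith
  -- basic lower bounds for the powers of `m`
  have hm2 : 144 * K * B ^ 2 ≤ m ^ 2 := by
    have h1 : (12 * K * B) ^ 2 ≤ m ^ 2 := pow_le_pow_left₀ (by positivity) hmB 2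
    have h2 : 144 * K * B ^ 2 ≤ (12 * K * B) ^ 2 := by
      have : (12 * K * B) ^ 2 = K * (144 * K * B ^ 2) := by ring
      rw [this]
      exact le_mul_of_one_le_left (by positivity) hK
    linarith
  have hm3 : 1728 * K * B ^ 3 ≤ m ^ 3 := by
    have h1 : (12 * K * B) ^ 3 ≤ m ^ 3 := pow_le_pow_left₀ (by positivity) hmB 3
    have h2 : 1728 * K * B ^ 3 ≤ (12 * K * B) ^ 3 := by
      have : (12 * K * B) ^ 3 = K ^ 2 * (1728 * K * B ^ 3) := by ring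
      rw [this]
      exact le_mul_of_one_le_left (by positivity) (one_le_pow₀ hK)
    linarith
  -- terms 1, 3, 4
  have hKB : K * (L * m) * B ^ 2 ≤ L * m ^ 3 / 144 := by
    have : L * m * (144 * K * B ^ 2) ≤ L * m * m ^ 2 := mul_le_mul_of_nonneg_left hm2 (by positivity)
    nlinarith
  have t1 : K * (q ^ 7) ^ 3 * ((q ^ 7 * L) ^ 2 * p ^ 14 * q ^ 7 * m) ≤ L * m ^ 3 / 144 := by
    have h1 : K * (q ^ 7) ^ 3 * ((q ^ 7 * L) ^ 2 * p ^ 14 * q ^ 7 * m) = K * (L * m) * (L * P ^ 2) := by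
      rw [hP]; ring
    rw [h1]
    exact le_trans (mul_le_mul_of_nonneg_left hLP (by positivity)) hKB
  have t3 : K * (q ^ 7) ^ 3 * (q ^ 7 * L * p ^ 14 * ((q ^ 7) ^ 2 * m)) ≤ L * m ^ 3 / 144 := by
    have h1 : K * (q ^ 7) ^ 3 * (q ^ 7 * L * p ^ 14 * ((q ^ 7) ^ 2 * m)) = K * (L * m) * P ^ 2 := by
      rw [hP]; ring
    rw [h1]
    refine le_trans (mul_le_mul_of_nonneg_left ?_ (by positivity)) hKB
    exact pow_le_pow_left₀ (by positivity) hPB 2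
  have t4 : K * (q ^ 7) ^ 3 * (q ^ 7 * L * p ^ 14 * (p ^ 7 * (q ^ 7) ^ 3 / U ^ 2 * m)) ≤
      L * m ^ 3 / 144 := by
    have h1 : K * (q ^ 7) ^ 3 * (q ^ 7 * L * p ^ 14 * (p ^ 7 * (q ^ 7) ^ 3 / U ^ 2 * m)) =
        K * (L * m) * (p ^ 21 * q ^ 49 / U ^ 2) := by ring
    rw [h1]
    refine le_trans (mul_le_mul_of_nonneg_left ?_ (by positivity)) hKB
    rw [div_le_iff₀ (by positivity)]
    have h2 : p ^ 21 * q ^ 49 * B ≤ (B ^ 2 * U ^ 2) * B := by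
      have h3 : p ^ 21 * q ^ 49 * B ≤ p ^ 21 * q ^ 49 * (q ^ 14 * L * U ^ 2) :=
        mul_le_mul_of_nonneg_left hB (by positivity)
      have h4 : p ^ 21 * q ^ 49 * (q ^ 14 * L * U ^ 2) = (L * P ^ 2) * P * U ^ 2 := by rw [hP]; ring
      have h5 : (L * P ^ 2) * P * U ^ 2 ≤ B ^ 2 * B * U ^ 2 := by
        refine mul_le_mul_of_nonneg_right ?_ (by positivity)
        exact mul_le_mul hLP hPB (by positivity) (by positivity)
      calc p ^ 21 * q ^ 49 * B ≤ (L * P ^ 2) * P * U ^ 2 := by rw [← h4]; exact h3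
        _ ≤ B ^ 2 * B * U ^ 2 := h5
        _ = (B ^ 2 * U ^ 2) * B := by ring
    exact le_of_mul_le_mul_right h2 (by linarith)
  -- terms 5, 6
  have hK3 : K * L * B ^ 3 ≤ L * m ^ 3 / 1728 := by
    have : L * (1728 * K * B ^ 3) ≤ L * m ^ 3 := mul_le_mul_of_nonneg_left hm3 (by positivity)
    nlinarith
  have t5 : K * (q ^ 7) ^ 3 * (q ^ 7 * L * p ^ 14 * ((p ^ 14) ^ 2 * (q ^ 7) ^ 3)) ≤
      L * m ^ 3 / 1728 := by
    have h1 : K * (q ^ 7) ^ 3 * (q ^ 7 * L * p ^ 14 * ((p ^ 14) ^ 2 * (q ^ 7) ^ 3)) =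
        K * L * (p ^ 36 * q ^ 49 * p ^ 6) := by ring
    rw [h1]
    refine le_trans (mul_le_mul_of_nonneg_left ?_ (by positivity)) hK3
    calc p ^ 36 * q ^ 49 * p ^ 6 ≤ p ^ 36 * q ^ 49 * q ^ 5 :=
          mul_le_mul_of_nonneg_left hpq (by positivity)
      _ = Q ^ 3 := by rw [hQ]; ring
      _ ≤ B ^ 3 := pow_le_pow_left₀ (by positivity) hQB 3
  have t6 : K * (q ^ 7) ^ 3 * 1 ≤ L * m ^ 3 / 1728 := by
    refine le_trans ?_ hK3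
    have h1 : (q ^ 7) ^ 3 ≤ P := by
      rw [hP]
      have : (q ^ 7) ^ 3 = 1 * q ^ 21 := by ring
      rw [this]
      exact mul_le_mul_of_nonneg_right (one_le_pow₀ hp) (by positivity)
    have h2 : B ≤ B ^ 3 := le_self_pow₀ hB1 (by norm_num)
    calc K * (q ^ 7) ^ 3 * 1 = K * (q ^ 7) ^ 3 := by ring
      _ ≤ K * B ^ 3 := mul_le_mul_of_nonneg_left (by linarith) hK0.le
      _ = K * 1 * B ^ 3 := by ring
      _ ≤ K * L * B ^ 3 := by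
          refine mul_le_mul_of_nonneg_right ?_ (by positivity)
          exact mul_le_mul_of_nonneg_left hL hK0.le
  -- term 2
  have hs0 : 0 < s := by
    rcases hs.lt_or_eq with h | h
    · exact h
    · exfalso; rw [hmd, ← h] at hm0; norm_num at hm0
  have t2 : K * (q ^ 7) ^ 3 * ((p ^ 14) ^ 2 * s ^ 3) ≤ L * m ^ 3 / 41 := by
    have h0 : 41 * (K * (p ^ 28 * q ^ 21)) ≤ L * s ^ 3 := by
      refine le_of_sq_le_sq ?_ (by positivity)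
      have h1 : L ^ 2 * m ^ 3 = (L * s ^ 3) ^ 2 := by rw [hmd]; ring
      rw [← h1]
      have h2 : y ^ 2 * (1728 * K ^ 3 * Q ^ 3) ≤ L ^ 2 * m ^ 3 := by
        refine mul_le_mul (pow_le_pow_left₀ hy0 hyL 2) ?_ (by positivity) (by positivity)
        have h3 : (12 * K * B) ^ 3 ≤ m ^ 3 := pow_le_pow_left₀ (by positivity) hmB 3
        have h4 : (12 * K * Q) ^ 3 ≤ (12 * K * B) ^ 3 := by
          refine pow_le_pow_left₀ (by positivity) ?_ 3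
          exact mul_le_mul_of_nonneg_left hQB (by positivity)
        calc 1728 * K ^ 3 * Q ^ 3 = (12 * K * Q) ^ 3 := by ring
          _ ≤ m ^ 3 := le_trans h4 h3
      have h5 : y ^ 2 * (1728 * K ^ 3 * Q ^ 3) = 1728 * K ^ 3 * (p ^ 28 * q ^ 21) ^ 2 := by
        have : y ^ 2 * (1728 * K ^ 3 * Q ^ 3) = (y * q ^ 6) ^ 2 * (1728 * K ^ 3 * (p ^ 36 * q ^ 42)) := by
          rw [hQ]; ring
        rw [this, hy]
        ring
      have h6 : (41 * (K * (p ^ 28 * q ^ 21))) ^ 2 ≤ 1728 * K ^ 3 * (p ^ 28 * q ^ 21) ^ 2 := by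
        have : (41 * (K * (p ^ 28 * q ^ 21))) ^ 2 = 1681 * K ^ 2 * (p ^ 28 * q ^ 21) ^ 2 := by ring
        rw [this]
        refine mul_le_mul_of_nonneg_right ?_ (by positivity)
        nlinarith [pow_pos hK0 2]
      linarith
    have h7 : K * (q ^ 7) ^ 3 * ((p ^ 14) ^ 2 * s ^ 3) = (K * (p ^ 28 * q ^ 21)) * s ^ 3 := by ring
    have h8 : L * m ^ 3 = L * s ^ 3 * s ^ 3 := by rw [hmd]; ring
    rw [h7, h8]
    have h9 : 41 * (K * (p ^ 28 * q ^ 21)) * s ^ 3 ≤ L * s ^ 3 * s ^ 3 :=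
      mul_le_mul_of_nonneg_right h0 (by positivity)
    linarith
  rw [← hmd] at hm
  have hsum : K * (q ^ 7) ^ 3 * ((q ^ 7 * L) ^ 2 * p ^ 14 * q ^ 7 * m +
      (p ^ 14) ^ 2 * s ^ 3 + q ^ 7 * L * p ^ 14 * (((q ^ 7) ^ 2 + p ^ 7 * (q ^ 7) ^ 3 / U ^ 2) * m +
        (p ^ 14) ^ 2 * (q ^ 7) ^ 3) + 1) =
      K * (q ^ 7) ^ 3 * ((q ^ 7 * L) ^ 2 * p ^ 14 * q ^ 7 * m) +
      K * (q ^ 7) ^ 3 * ((p ^ 14) ^ 2 * s ^ 3) +
      K * (q ^ 7) ^ 3 * (q ^ 7 * L * p ^ 14 * ((q ^ 7) ^ 2 * m)) +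
      K * (q ^ 7) ^ 3 * (q ^ 7 * L * p ^ 14 * (p ^ 7 * (q ^ 7) ^ 3 / U ^ 2 * m)) +
      K * (q ^ 7) ^ 3 * (q ^ 7 * L * p ^ 14 * ((p ^ 14) ^ 2 * (q ^ 7) ^ 3)) +
      K * (q ^ 7) ^ 3 * 1 := by ring
  rw [hsum] at hm
  have hLm : 0 < L * m ^ 3 := by positivity
  linarith

theorem ALG : ALG_stmt := by
  intro J N m K U L hJ hJN hNJ hK hm0 hU hL hyL hLy hBB hmain
  have hJ0 : 0 ≤ J := by linarith
  have hN1 : 1 ≤ N := le_trans (Real.one_le_rpow hJ (by norm_num)) hJN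
  have hN0 : 0 ≤ N := by linarith
  have hpw : ∀ (x : ℝ), 0 ≤ x → ∀ (a : ℝ) (n : ℕ) (b : ℝ), a * n = b → (x ^ a) ^ n = x ^ b := by
    intro x hx a n b h
    rw [← Real.rpow_natCast, ← Real.rpow_mul hx, h]
  obtain ⟨p, hp⟩ : ∃ p, p = J ^ (1 / 14 : ℝ) := ⟨_, rfl⟩
  obtain ⟨q, hq⟩ : ∃ q, q = N ^ (1 / 7 : ℝ) := ⟨_, rfl⟩
  obtain ⟨s, hs⟩ : ∃ s, s = m ^ (1 / 2 : ℝ) := ⟨_, rfl⟩
  have hp1 : 1 ≤ p := by rw [hp]; exact Real.one_le_rpow hJ (by norm_num)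
  have hq1 : 1 ≤ q := by rw [hq]; exact Real.one_le_rpow hN1 (by norm_num)
  have hp0 : 0 < p := by linarith
  have hq0 : 0 < q := by linarith
  have hs0 : 0 ≤ s := by rw [hs]; positivity
  have eJ : p ^ 14 = J := by
    rw [hp, hpw J hJ0 _ 14 1 (by norm_num), Real.rpow_one]
  have eJ12 : J ^ (1 / 2 : ℝ) = p ^ 7 := by
    rw [hp, hpw J hJ0 _ 7 (1 / 2) (by norm_num)]
  have eJ67 : J ^ (6 / 7 : ℝ) = p ^ 12 := by
    rw [hp, hpw J hJ0 _ 12 (6 / 7) (by norm_num)]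
  have eJ57 : J ^ (5 / 7 : ℝ) = p ^ 10 := by
    rw [hp, hpw J hJ0 _ 10 (5 / 7) (by norm_num)]
  have eN : q ^ 7 = N := by
    rw [hq, hpw N hN0 _ 7 1 (by norm_num), Real.rpow_one]
  have eN187 : N ^ (18 / 7 : ℝ) = q ^ 18 := by
    rw [hq, hpw N hN0 _ 18 (18 / 7) (by norm_num)]
  have eN67 : N ^ (-(6 / 7 : ℝ)) = (q ^ 6)⁻¹ := by
    rw [Real.rpow_neg hN0, hq, hpw N hN0 _ 6 (6 / 7) (by norm_num)]
  have em : s ^ 2 = m := by
    rw [hs, hpw m hm0 _ 2 1 (by norm_num), Real.rpow_one]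
  have em32 : m ^ (3 / 2 : ℝ) = s ^ 3 := by
    rw [hs, hpw m hm0 _ 3 (3 / 2) (by norm_num)]
  have hpq : p ^ 6 ≤ q ^ 5 := by
    have h1 : (J ^ (3 / 5 : ℝ)) ^ 5 ≤ N ^ 5 := pow_le_pow_left₀ (by positivity) hJN 5
    rw [hpw J hJ0 _ 5 3 (by norm_num)] at h1
    have h2 : J ^ (3 : ℝ) = (p ^ 6) ^ 7 := by
      have : J ^ (3 : ℝ) = J ^ 3 := by
        rw [← Real.rpow_natCast]; norm_num
      rw [this, ← eJ]
      ring
    have h3 : N ^ 5 = (q ^ 5) ^ 7 := by rw [← eN]; ring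
    rw [h2, h3] at h1
    exact le_of_pow_le_pow_left₀ (by norm_num) (by positivity) h1
  have eBB : BB J N = p ^ 7 * q ^ 21 + p ^ 12 * q ^ 18 := by
    rw [BB, eJ12, eJ67, eN187, ← eN]
    ring
  rw [eJ57, eN67] at hyL hLy
  rw [eBB] at hBB ⊢
  rw [← em]
  refine ALG_poly p q s K U L (p ^ 10 * (q ^ 6)⁻¹) hp1 hq1 hs0 hpq hK hU hL (by positivity) ?_ hyL hLy ?_ ?_
  · field_simp
  · refine le_trans hBB (le_of_eq ?_)
    rw [← eN]; ring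
  · rw [em32, eJ12, ← em, ← eJ, ← eN] at hmain
    exact hmain

end Pool.Agent.LW
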